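import Pool.Agent.H36.Slalom.Gap
import Pool.Agent.H36.Slalom.PiBase

/-!
# Intersection versus disjoint sum of ideals: the four statements

* (ii) is refuted in ZFC: for a fixed ideal `I` the equality
  `p_K(I, J₀ ∩ J₁) = p_K(I, J₀ ⊕ J₁)` holds for all `J₀, J₁` if and only if `I` is doubling, and
  maximal ideals are not doubling; in that case the gap can be `≤ 2 ^ ω` versus `∞`.
* (iv) holds for all `J₀, J₁` if and only if `2 ^ ω < 2 ^ 𝔭`.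
* (i) and (iii) hold if `𝔭 = 𝔡`; (i) always holds for doubling `I`; (iii) also holds if
  `2 ^ ω < 2 ^ 𝔭`.
* (i) and (iii) fail if `P(ω)` has the `𝔱`-Freese-Nation property, `cov(M) = 2 ^ ω` and
  `2 ^ 𝔱 = 2 ^ ω` (all this is true in the Cohen model).
-/

set_option autoImplicit false

noncomputable section

namespace Pool.Agent.Results.MP_8697f8_lc.SlalomSum

open Cardinal Pool.Agent.H36.Slalom

/-- The disjoint sum `J₀ ⊕ J₁`, moved to `ω` by the bijection `e`. -/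
def dsum (e : Bool × ℕ ≃ ℕ) (J₀ J₁ : IdealOn ℕ) : IdealOn ℕ := (J₀.sum J₁).map e

/-- The ideal `I` is maximal. -/
def IsMaximal (I : IdealOn ℕ) : Prop := ∀ a : Set ℕ, a ∈ I ∨ aᶜ ∈ I

/-- `P(ω)` has the `𝔱`-Freese-Nation property. -/
def FreeseNation : Prop :=
  ∃ f : Set ℕ → Set (Set ℕ), (∀ A, #(f A) < tNumber) ∧
    ∀ A B : Set ℕ, A ⊆ B → ∃ C ∈ f A ∩ f B, A ⊆ C ∧ C ⊆ B

/-- The four statements of the problem. -/
theorem result (e : Bool × ℕ ≃ ℕ) :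
    ((∀ I : IdealOn ℕ, (∀ J₀ J₁ : IdealOn ℕ, pK I (J₀.inter J₁) = pK I (dsum e J₀ J₁)) ↔
        Doubling I) ∧
      (∀ I : IdealOn ℕ, ¬ Doubling I → ∃ J₀ J₁ : IdealOn ℕ,
        pK I (J₀.inter J₁) ≤ (((2 : Cardinal.{0}) ^ ℵ₀ : Cardinal.{0}) : WithTop Cardinal.{0}) ∧
          pK I (dsum e J₀ J₁) = ⊤) ∧
      (∀ I : IdealOn ℕ, IsMaximal I → ¬ Doubling I) ∧ ∃ I : IdealOn ℕ, IsMaximal I) ∧
    ((∀ J₀ J₁ : IdealOn ℕ, pKStar (J₀.inter J₁) = pKStar (dsum e J₀ J₁)) ↔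
      (2 : Cardinal.{0}) ^ ℵ₀ < 2 ^ pNumber) ∧
    ((∀ I J₀ J₁ : IdealOn ℕ, pNumber = dNumber ∨ Doubling I →
        slE I (J₀.inter J₁) = slE I (dsum e J₀ J₁)) ∧
      (∀ J₀ J₁ : IdealOn ℕ, pNumber = dNumber ∨ (2 : Cardinal.{0}) ^ ℵ₀ < 2 ^ pNumber →
        slEStar (J₀.inter J₁) = slEStar (dsum e J₀ J₁)) ∧
      (FreeseNation → covM = 2 ^ ℵ₀ → (2 : Cardinal.{0}) ^ tNumber = 2 ^ ℵ₀ →
        ∃ J₀ J₁ : IdealOn ℕ, (∃ I : IdealOn ℕ, slE I (J₀.inter J₁) < slE I (dsum e J₀ J₁)) ∧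
          slEStar (J₀.inter J₁) < slEStar (dsum e J₀ J₁))) := by
  simp only [dsum, slE_map, slEStar_map, pK_map, pKStar_map]
  refine ⟨⟨pK_iff_doubling, fun I hI => pK_gap hI, fun I hI => not_doubling_of_maximal hI,
    exists_maximal⟩, pKStar_iff, ?_, ?_, ?_⟩
  · rintro I J₀ J₁ (h | h)
    · exact (sum_inter_of_pNumber_eq_dNumber h I J₀ J₁).1
    · exact slE_eq_of_doubling h J₀ J₁
  · rintro J₀ J₁ (h | h)
    · exact (slEStar_eq_of_pNumber_eq_dNumber h _).trans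
        (slEStar_eq_of_pNumber_eq_dNumber h _).symm
    · exact (slEStar_eq_of_lt _ h).trans (slEStar_eq_of_lt _ h).symm
  · rintro ⟨f, hf, hf2⟩ hcov h2
    obtain ⟨J₀, J₁, h3, h4⟩ := exists_slE_lt hf (fun A B hAB => by
      obtain ⟨C, hC, h5, h6⟩ := hf2 A B hAB
      exact ⟨C, hC.1, hC.2, h5, h6⟩) hcov h2.le
    refine ⟨J₀, J₁, ?_, slEStar_lt_of h3 h4⟩
    obtain ⟨I, hI⟩ := h3
    exact ⟨I, hI.trans_lt (h4 I)⟩

end Pool.Agent.Results.MP_8697f8_lc.SlalomSum
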